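import Mathlib

/-!
# No envelope of `ℤ` has Galois group `S₃`

An envelope `φ : H → G` of groups is a homomorphism such that every homomorphism `H → G`
factors through `φ` via an endomorphism of `G`, and such that every endomorphism `f` of `G`
with `f ∘ φ = φ` is an automorphism.  Its Galois group is the group of automorphisms `f` of `G`
with `f ∘ φ = φ`.

We show that the symmetric group on three letters is not the Galois group of any envelope
`ℤ → G`.
-/

namespace Pool.Agent.Results.MP_cdb8a2_al.NoEnvelopeS3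

universe u

/-- `φ : H → G` is an *envelope* of `H`: the map `End(G) → Hom(H, G)`, `f ↦ f ∘ φ`, is
surjective, and every endomorphism `f` of `G` with `f ∘ φ = φ` is an automorphism. -/
def IsEnvelope {H G : Type*} [Group H] [Group G] (φ : H →* G) : Prop :=
  Function.Surjective (fun f : G →* G => f.comp φ) ∧
    ∀ f : G →* G, f.comp φ = φ → Function.Bijective f

/-- The *Galois group* `Gal(φ) = {f ∈ Aut(G) : f ∘ φ = φ}` of a homomorphism `φ : H → G`,
as a subgroup of the automorphism group of `G`. -/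
def Gal {H G : Type*} [Group H] [Group G] (φ : H →* G) : Subgroup (MulAut G) where
  carrier := {f | f.toMonoidHom.comp φ = φ}
  one_mem' := by
    ext x
    rfl
  mul_mem' := by
    intro a b ha hb
    ext x
    have h1 := DFunLike.congr_fun ha x
    have h2 := DFunLike.congr_fun hb x
    simp only [MonoidHom.comp_apply, MulEquiv.coe_toMonoidHom] at h1 h2
    simp only [MonoidHom.comp_apply, MulEquiv.coe_toMonoidHom, MulAut.mul_apply]
    rw [h2, h1]
  inv_mem' := by
    intro a ha
    ext x
    have h1 := DFunLike.congr_fun ha x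
    simp only [MonoidHom.comp_apply, MulEquiv.coe_toMonoidHom] at h1
    simp only [MonoidHom.comp_apply, MulEquiv.coe_toMonoidHom]
    conv_lhs => rw [← h1]
    exact MulAut.inv_apply_self _ _ _

/-- Central elements of `S₃` are trivial. -/
lemma center_S3 (z : Equiv.Perm (Fin 3)) (hz : ∀ w, z * w = w * z) : z = 1 := by
  revert hz
  revert z
  decide

/-- A proper subgroup of `S₃` is cyclic. -/
lemma proper_cyclic (H : Subgroup (Equiv.Perm (Fin 3))) (hH : H ≠ ⊤) : IsCyclic H := by
  have hdvd : Nat.card H ∣ 6 := by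
    have h := Subgroup.card_subgroup_dvd_card H
    have h6 : Nat.card (Equiv.Perm (Fin 3)) = 6 := by
      rw [Nat.card_eq_fintype_card, Fintype.card_perm]
      rfl
    rwa [h6] at h
  have hne : Nat.card H ≠ 6 := by
    intro h
    apply hH
    apply Subgroup.eq_top_of_card_eq
    rw [h, Nat.card_eq_fintype_card, Fintype.card_perm]
    rfl
  have hpos : 0 < Nat.card H := Nat.card_pos
  have hle : Nat.card H ≤ 6 := Nat.le_of_dvd (by norm_num) hdvd
  have hcases : Nat.card H = 1 ∨ Nat.card H = 2 ∨ Nat.card H = 3 := by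
    interval_cases h : Nat.card H <;> simp_all
  rcases hcases with h | h | h
  · have : Subsingleton H := (Nat.card_eq_one_iff_unique.mp h).1
    infer_instance
  · have : Fact (Nat.Prime 2) := ⟨Nat.prime_two⟩
    exact isCyclic_of_prime_card h
  · have : Fact (Nat.Prime 3) := ⟨Nat.prime_three⟩
    exact isCyclic_of_prime_card h

/-- The abelian case. -/
lemma abelian_case {G : Type*} [CommGroup G] (g : G)
    (hg : ∀ f : G →* G, f g = g → Function.Bijective f)
    (K : Subgroup (MulAut G)) (hK : ∀ f, f ∈ K ↔ f g = g)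
    (e : K ≃* Equiv.Perm (Fin 3)) : False := by
  classical
  -- the pointwise group of endomorphisms killing `g`
  let L : Subgroup (G →* G) :=
    { carrier := {l | l g = 1}
      one_mem' := rfl
      mul_mem' := by
        intro a b ha hb
        simp only [Set.mem_ofPred_eq] at ha hb ⊢
        rw [MonoidHom.mul_apply, ha, hb, one_mul]
      inv_mem' := by
        intro a ha
        simp only [Set.mem_ofPred_eq] at ha ⊢
        rw [MonoidHom.inv_apply, ha, inv_one] }
  have hLmem : ∀ l : G →* G, l ∈ L ↔ l g = 1 := fun l => Iff.rfl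
  -- bijection between `L` and `K`
  have hbij : ∀ l ∈ L, Function.Bijective ((MonoidHom.id G) * l) := by
    intro l hl
    apply hg
    rw [MonoidHom.mul_apply, (hLmem l).mp hl]
    simp
  let F : L → K := fun l => ⟨MulEquiv.ofBijective ((MonoidHom.id G) * l.1) (hbij l.1 l.2), by
    rw [hK]
    show ((MonoidHom.id G) * l.1) g = g
    rw [MonoidHom.mul_apply, (hLmem l.1).mp l.2]
    simp⟩
  have hF : ∀ (l : L) (x : G), (F l).1 x = x * l.1 x := by
    intro l x
    rfl
  have hFbij : Function.Bijective F := by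
    constructor
    · intro a b hab
      apply Subtype.ext
      ext x
      have h1 := hF a x
      rw [hab, hF b x] at h1
      exact (mul_left_cancel h1).symm
    · intro f
      refine ⟨⟨(f.1.toMonoidHom) * (MonoidHom.id G)⁻¹, ?_⟩, ?_⟩
      · rw [hLmem, MonoidHom.mul_apply, MonoidHom.inv_apply]
        have := (hK f.1).mp f.2
        simp [this]
      · apply Subtype.ext
        ext x
        rw [hF]
        simp [MonoidHom.mul_apply, MonoidHom.inv_apply]
  have hcard : Nat.card L = 6 := by
    rw [Nat.card_eq_of_bijective F hFbij, Nat.card_congr e.toEquiv, Nat.card_eq_fintype_card,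
      Fintype.card_perm]
    rfl
  have : Finite L := Nat.finite_of_card_ne_zero (by rw [hcard]; norm_num)
  have : Fact (Nat.Prime 2) := ⟨Nat.prime_two⟩
  have : Fact (Nat.Prime 3) := ⟨Nat.prime_three⟩
  obtain ⟨a, ha⟩ := exists_prime_orderOf_dvd_card' (G := L) 2 (by rw [hcard]; norm_num)
  obtain ⟨b, hb⟩ := exists_prime_orderOf_dvd_card' (G := L) 3 (by rw [hcard]; norm_num)
  have hab : orderOf (a * b) = 6 := by
    rw [(Commute.all a b).orderOf_mul_eq_mul_orderOf_of_coprime (by rw [ha, hb]; norm_num),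
      ha, hb]
  have hgen : ∀ l : L, l ∈ Subgroup.zpowers (a * b) := by
    intro l
    have : Subgroup.zpowers (a * b) = ⊤ := by
      apply Subgroup.eq_top_of_card_eq
      rw [Nat.card_zpowers, hab, hcard]
    rw [this]
    trivial
  -- composition in `L` is commutative
  have hcomm : ∀ (l l' : L) (x : G), l.1 (l'.1 x) = l'.1 (l.1 x) := by
    intro l l' x
    obtain ⟨n, hn⟩ := Subgroup.mem_zpowers_iff.mp (hgen l)
    obtain ⟨m, hm⟩ := Subgroup.mem_zpowers_iff.mp (hgen l')
    have hn' : ∀ y, l.1 y = ((a * b).1 y) ^ n := by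
      intro y
      rw [← hn]
      rfl
    have hm' : ∀ y, l'.1 y = ((a * b).1 y) ^ m := by
      intro y
      rw [← hm]
      rfl
    rw [hn', hm', hm', hn', map_zpow, map_zpow, ← zpow_mul, ← zpow_mul, mul_comm m n]
  -- hence `K` is commutative
  have hKcomm : ∀ f f' : K, f * f' = f' * f := by
    intro f f'
    obtain ⟨l, rfl⟩ := hFbij.2 f
    obtain ⟨l', rfl⟩ := hFbij.2 f'
    apply Subtype.ext
    ext x
    show (F l).1 ((F l').1 x) = (F l').1 ((F l).1 x)
    rw [hF, hF, hF, hF, map_mul, map_mul, hcomm l l' x]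
    simp only [mul_comm, mul_left_comm]
  have : ∀ s t : Equiv.Perm (Fin 3), s * t = t * s := by
    intro s t
    have := hKcomm (e.symm s) (e.symm t)
    have h2 := congrArg e this
    simpa using h2
  revert this
  decide

/-- Elements of `A₃` have cube one. -/
lemma A3_cube (s : Equiv.Perm (Fin 3)) (hs : Equiv.Perm.sign s = 1) : s ^ 3 = 1 := by
  revert hs
  revert s
  decide

/-- A transposition inverts the elements of `A₃`. -/
lemma A3_conj (s : Equiv.Perm (Fin 3)) (hs : Equiv.Perm.sign s = 1) :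
    (Equiv.swap (0 : Fin 3) 1)⁻¹ * s * Equiv.swap (0 : Fin 3) 1 = s⁻¹ := by
  revert hs
  revert s
  decide

/-- The alternating group on three letters is cyclic. -/
lemma A3_cyclic : IsCyclic (alternatingGroup (Fin 3)) := by
  have : Fact (Nat.Prime 3) := ⟨Nat.prime_three⟩
  apply isCyclic_of_prime_card (p := 3)
  have h := nat_card_alternatingGroup (α := Fin 3)
  rw [h]
  simp [Nat.factorial]

/-- The non-abelian case: if `G / Z(G)` is isomorphic to `S₃` then there is a non-surjective
endomorphism of `G` fixing the centre pointwise. -/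
lemma nonabelian_case {G : Type*} [Group G] (π : G →* Equiv.Perm (Fin 3))
    (hker : ∀ x, π x = 1 ↔ x ∈ Subgroup.center G) (hsurj : Function.Surjective π) :
    ∃ ρ : G →* G, (∀ z ∈ Subgroup.center G, ρ z = z) ∧ ¬ Function.Surjective ρ := by
  classical
  obtain ⟨t, ht⟩ := hsurj (Equiv.swap (0 : Fin 3) 1)
  -- the index two subgroup
  let C : Subgroup G := (Equiv.Perm.sign.comp π).ker
  have hC : ∀ x, x ∈ C ↔ Equiv.Perm.sign (π x) = 1 := fun x => Iff.rfl
  have hZC : ∀ z ∈ Subgroup.center G, z ∈ C := by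
    intro z hz
    rw [hC, (hker z).mpr hz, map_one]
  have hcen : ∀ z ∈ Subgroup.center G, ∀ x, z * x = x * z := by
    intro z hz x
    exact (Subgroup.mem_center_iff.mp hz x).symm
  -- `C` is commutative
  have hCcomm : ∀ x ∈ C, ∀ y ∈ C, x * y = y * x := by
    intro x hx y hy
    let f : C →* alternatingGroup (Fin 3) :=
      (π.comp C.subtype).codRestrict (alternatingGroup (Fin 3)) (by
        intro c
        rw [Equiv.Perm.mem_alternatingGroup]
        exact c.2)
    have hf : f.ker ≤ Subgroup.center C := by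
      intro c hc
      rw [MonoidHom.mem_ker] at hc
      have h1 : π c.1 = 1 := congrArg Subtype.val hc
      rw [hker] at h1
      rw [Subgroup.mem_center_iff]
      intro d
      apply Subtype.ext
      exact (hcen c.1 h1 d.1).symm
    have : IsCyclic (alternatingGroup (Fin 3)) := A3_cyclic
    have h := (MonoidHom.isMulCommutative_of_isCyclic_of_ker_le_center f hf).is_comm.comm
      ⟨x, hx⟩ ⟨y, hy⟩
    exact congrArg Subtype.val h
  have htC : t ∉ C := by
    rw [hC, ht]
    decide
  have ht2 : t ^ 2 ∈ Subgroup.center G := by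
    rw [← hker, map_pow, ht]
    decide
  have hnotC : ∀ x, x ∉ C ↔ Equiv.Perm.sign (π x) = -1 := by
    intro x
    rw [hC]
    rcases Int.units_eq_one_or (Equiv.Perm.sign (π x)) with h | h <;> rw [h] <;> decide
  have hst : Equiv.Perm.sign (π t) = -1 := (hnotC t).mp htC
  have hCt : ∀ x, x ∉ C → x * t⁻¹ ∈ C := by
    intro x hx
    rw [hnotC] at hx
    rw [hC, map_mul, map_mul, map_inv, map_inv, hx, hst]
    decide
  have hCconj : ∀ x ∈ C, t⁻¹ * x * t ∈ C := by
    intro x hx
    rw [hC] at hx ⊢
    rw [map_mul, map_mul, map_mul, map_mul, map_inv, map_inv, hx, hst]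
    decide
  have hCconj' : ∀ x ∈ C, t * x * t⁻¹ ∈ C := by
    intro x hx
    rw [hC] at hx ⊢
    rw [map_mul, map_mul, map_mul, map_mul, map_inv, map_inv, hx, hst]
    decide
  -- the retraction on `C`
  let r : G → G := fun u => u ^ 2 * (t⁻¹ * u * t)⁻¹
  have hrdef : ∀ u, r u = u ^ 2 * (t⁻¹ * u * t)⁻¹ := fun u => rfl
  have hrZ : ∀ u ∈ C, r u ∈ Subgroup.center G := by
    intro u hu
    rw [← hker, hrdef, map_mul, map_pow, map_inv, map_mul, map_mul, map_inv, ht,
      A3_conj _ ((hC u).mp hu), inv_inv, ← pow_succ]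
    exact A3_cube _ ((hC u).mp hu)
  have hrmul : ∀ u ∈ C, ∀ v ∈ C, r (u * v) = r u * r v := by
    intro u hu v hv
    have huv := hCcomm u hu v hv
    have h1 := hCcomm _ (hCconj u hu) v hv
    have h2 := hCcomm _ (hCconj u hu) _ (hCconj v hv)
    have e1 : Commute u v := huv
    have e2 : Commute (t⁻¹ * u * t) v := h1
    have e3 : Commute (t⁻¹ * u * t) (t⁻¹ * v * t) := h2
    have e4 : t⁻¹ * (u * v) * t = (t⁻¹ * u * t) * (t⁻¹ * v * t) := by group
    rw [hrdef, hrdef, hrdef, e4, e1.mul_pow, mul_inv_rev, e3.symm.inv_inv.eq]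
    have e5 : Commute (v ^ 2) (t⁻¹ * u * t)⁻¹ := (e2.symm.pow_left 2).inv_right
    calc u ^ 2 * v ^ 2 * ((t⁻¹ * u * t)⁻¹ * (t⁻¹ * v * t)⁻¹)
        = u ^ 2 * (v ^ 2 * (t⁻¹ * u * t)⁻¹) * (t⁻¹ * v * t)⁻¹ := by group
      _ = u ^ 2 * ((t⁻¹ * u * t)⁻¹ * v ^ 2) * (t⁻¹ * v * t)⁻¹ := by rw [e5.eq]
      _ = u ^ 2 * (t⁻¹ * u * t)⁻¹ * (v ^ 2 * (t⁻¹ * v * t)⁻¹) := by group
  have hrfix : ∀ z ∈ Subgroup.center G, r z = z := by
    intro z hz
    have h1 : t⁻¹ * z * t = z := by
      rw [mul_assoc, hcen z hz t]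
      group
    rw [hrdef, h1]
    group
  have hrconj : ∀ u ∈ C, r (t * u * t⁻¹) = r u := by
    intro u hu
    have hcube : u ^ 3 ∈ Subgroup.center G := by
      rw [← hker, map_pow]
      exact A3_cube _ ((hC u).mp hu)
    -- conjugation by `t⁻¹` and `t` agree since `t²` is central
    have h1 : t⁻¹ * u * t = t * u * t⁻¹ := by
      have h := hcen _ ht2 u
      have h2 : t⁻¹ * (t ^ 2 * u) * t⁻¹ = t⁻¹ * (u * t ^ 2) * t⁻¹ := by rw [h]
      calc t⁻¹ * u * t = t⁻¹ * (u * t ^ 2) * t⁻¹ := by group
        _ = t⁻¹ * (t ^ 2 * u) * t⁻¹ := by rw [h2]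
        _ = t * u * t⁻¹ := by group
    have h3 : (t * u * t⁻¹) ^ 3 = u ^ 3 := by
      rw [conj_pow, ← hcen _ hcube t]
      group
    have h4 : t⁻¹ * (t * u * t⁻¹) * t = u := by group
    have h5 : Commute (t * u * t⁻¹) u := hCcomm _ (hCconj' u hu) u hu
    rw [hrdef, hrdef, h4, h1]
    set v := t * u * t⁻¹ with hv
    -- `v² u⁻¹ = u² v⁻¹`
    have h6 : v ^ 2 * u⁻¹ * (u * v) = u ^ 2 * v⁻¹ * (u * v) := by
      calc v ^ 2 * u⁻¹ * (u * v) = v ^ 3 := by group
        _ = u ^ 3 := h3
        _ = u ^ 2 * v⁻¹ * (v * u) := by group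
        _ = u ^ 2 * v⁻¹ * (u * v) := by rw [h5.eq]
    exact mul_right_cancel h6
  -- the global retraction
  let ρ : G → G := fun x => if x ∈ C then r x else r (x * t⁻¹) * t
  have hρ1 : ∀ x ∈ C, ρ x = r x := fun x hx => if_pos hx
  have hρ2 : ∀ x, x ∉ C → ρ x = r (x * t⁻¹) * t := fun x hx => if_neg hx
  have hρmul : ∀ x y, ρ (x * y) = ρ x * ρ y := by
    intro x y
    by_cases hx : x ∈ C <;> by_cases hy : y ∈ C
    · rw [hρ1 _ (C.mul_mem hx hy), hρ1 x hx, hρ1 y hy, hrmul x hx y hy]
    · have hxy : x * y ∉ C := by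
        intro h
        exact hy ((C.mul_mem_cancel_left hx).mp h)
      rw [hρ2 _ hxy, hρ1 x hx, hρ2 y hy, mul_assoc x y, hrmul x hx _ (hCt y hy), mul_assoc]
    · have hxy : x * y ∉ C := by
        intro h
        exact hx ((C.mul_mem_cancel_right hy).mp h)
      have e1 : x * y * t⁻¹ = (x * t⁻¹) * (t * y * t⁻¹) := by group
      rw [hρ2 _ hxy, hρ2 x hx, hρ1 y hy, e1, hrmul _ (hCt x hx) _ (hCconj' y hy), hrconj y hy]
      have hc := hcen _ (hrZ y hy) t
      calc r (x * t⁻¹) * r y * t = r (x * t⁻¹) * (r y * t) := mul_assoc _ _ _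
        _ = r (x * t⁻¹) * (t * r y) := by rw [hc]
        _ = r (x * t⁻¹) * t * r y := (mul_assoc _ _ _).symm
    · have hxy : x * y ∈ C := by
        rw [hnotC] at hx hy
        rw [hC, map_mul, map_mul, hx, hy]
        decide
      have e1 : x * y = (x * t⁻¹) * ((t * (y * t⁻¹) * t⁻¹) * t ^ 2) := by group
      have m1 := hCt x hx
      have m2 := hCconj' _ (hCt y hy)
      have m3 := hZC _ ht2
      rw [hρ1 _ hxy, hρ2 x hx, hρ2 y hy]
      conv_lhs => rw [e1]
      rw [hrmul _ m1 _ (C.mul_mem m2 m3), hrmul _ m2 _ m3, hrconj _ (hCt y hy),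
        hrfix _ ht2]
      have hc := hcen _ (hrZ _ (hCt y hy)) t
      calc r (x * t⁻¹) * (r (y * t⁻¹) * t ^ 2)
          = r (x * t⁻¹) * (r (y * t⁻¹) * t) * t := by
            rw [pow_two]; group
        _ = r (x * t⁻¹) * (t * r (y * t⁻¹)) * t := by rw [hc]
        _ = r (x * t⁻¹) * t * (r (y * t⁻¹) * t) := by group
  refine ⟨MonoidHom.mk' ρ hρmul, ?_, ?_⟩
  · intro z hz
    show ρ z = z
    rw [hρ1 z (hZC z hz), hrfix z hz]
  · intro hs
    obtain ⟨c, hc⟩ := hsurj (Equiv.swap (0 : Fin 3) 2)
    obtain ⟨x, hx⟩ := hs c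
    have hx' : ρ x = c := hx
    by_cases hxC : x ∈ C
    · rw [hρ1 x hxC] at hx'
      have h1 := (hker _).mpr (hrZ x hxC)
      rw [hx', hc] at h1
      revert h1
      decide
    · rw [hρ2 x hxC] at hx'
      have h1 := (hker _).mpr (hrZ _ (hCt x hxC))
      have h2 : π c = π t := by
        rw [← hx', map_mul, h1, one_mul]
      rw [hc, ht] at h2
      revert h2
      decide

/-- Slightly more general form: it is enough that all endomorphisms fixing `g` are bijective. -/
theorem key {G : Type*} [Group G] (g : G)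
    (hg : ∀ f : G →* G, f g = g → Function.Bijective f)
    (K : Subgroup (MulAut G)) (hK : ∀ f, f ∈ K ↔ f g = g)
    (e : K ≃* Equiv.Perm (Fin 3)) : False := by
  classical
  -- `g` is central
  have hcg : ∀ x, g * x = x * g := by
    have hmem : MulAut.conj g ∈ K := by
      rw [hK, MulAut.conj_apply]
      group
    have h1 : e ⟨MulAut.conj g, hmem⟩ = 1 := by
      apply center_S3
      intro w
      obtain ⟨f, rfl⟩ := e.surjective w
      rw [← map_mul, ← map_mul]
      apply congrArg e
      apply Subtype.ext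
      ext x
      show g * f.1 x * g⁻¹ = f.1 (g * x * g⁻¹)
      rw [map_mul, map_mul, map_inv, (hK f.1).mp f.2]
    have h2 : (⟨MulAut.conj g, hmem⟩ : K) = 1 := by
      apply e.injective
      rw [h1, map_one]
    have h3 : MulAut.conj g = 1 := congrArg Subtype.val h2
    intro x
    have h4 : g * x * g⁻¹ = x := by
      have := DFunLike.congr_fun h3 x
      simpa using this
    calc g * x = g * x * g⁻¹ * g := by group
      _ = x * g := by rw [h4]
  have hconj : ∀ x : G, MulAut.conj x ∈ K := by
    intro x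
    rw [hK, MulAut.conj_apply, ← hcg x]
    group
  let π : G →* Equiv.Perm (Fin 3) :=
    e.toMonoidHom.comp ((MulAut.conj (G := G)).codRestrict K hconj)
  have hker : ∀ x, π x = 1 ↔ x ∈ Subgroup.center G := by
    intro x
    have h1 : π x = e ⟨MulAut.conj x, hconj x⟩ := rfl
    rw [h1, map_eq_one_iff e e.injective, Subgroup.mem_center_iff]
    constructor
    · intro h y
      have h2 : MulAut.conj x = 1 := congrArg Subtype.val h
      have h3 : x * y * x⁻¹ = y := by
        have := DFunLike.congr_fun h2 y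
        simpa using this
      calc y * x = x * y * x⁻¹ * x := by rw [h3]
        _ = x * y := by group
    · intro h
      apply Subtype.ext
      ext y
      show x * y * x⁻¹ = y
      rw [← h y]
      group
  by_cases hsurj : Function.Surjective π
  · obtain ⟨ρ, hρ1, hρ2⟩ := nonabelian_case π hker hsurj
    apply hρ2
    apply (hg ρ _).2
    apply hρ1
    rw [Subgroup.mem_center_iff]
    intro x
    exact (hcg x).symm
  · have hrange : π.range ≠ ⊤ := by
      intro h
      exact hsurj (MonoidHom.range_eq_top.mp h)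
    have : IsCyclic π.range := proper_cyclic _ hrange
    have hcomm : ∀ x y : G, x * y = y * x := by
      apply (MonoidHom.isMulCommutative_of_isCyclic_of_ker_le_center
        π.rangeRestrict ?_).is_comm.comm
      intro x hx
      rw [MonoidHom.mem_ker] at hx
      rw [← hker]
      exact congrArg Subtype.val hx
    let inst : CommGroup G := { (inferInstance : Group G) with mul_comm := hcomm }
    exact @abelian_case G inst g hg K hK e

/-- Sanity check: the identity of `ℤ` is an envelope of `ℤ`. -/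
example : IsEnvelope (MonoidHom.id (Multiplicative ℤ)) := by
  refine ⟨fun ψ => ⟨ψ, rfl⟩, fun f hf => ?_⟩
  have : f = MonoidHom.id _ := hf
  rw [this]
  exact Function.bijective_id

/-- **Main theorem.**  The symmetric group `S₃` is not the Galois group of any envelope
`φ : ℤ → G` (`ℤ` is written multiplicatively as `Multiplicative ℤ`). -/
theorem result (G : Type u) [Group G] (φ : Multiplicative ℤ →* G) (hφ : IsEnvelope φ) :
    IsEmpty (Gal φ ≃* Equiv.Perm (Fin 3)) := by
  refine ⟨fun e => ?_⟩
  have hiff : ∀ f : G →* G, f.comp φ = φ ↔ f (φ (Multiplicative.ofAdd 1)) =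
      φ (Multiplicative.ofAdd 1) := by
    intro f
    constructor
    · intro h
      exact DFunLike.congr_fun h _
    · intro h
      apply MonoidHom.ext_mint
      exact h
  refine key (φ (Multiplicative.ofAdd 1)) ?_ (Gal φ) ?_ e
  · intro f hf
    exact hφ.2 f ((hiff f).mpr hf)
  · intro f
    exact hiff f.toMonoidHom

/-- The question as posed: it is not true that for every group `K` and every cardinal `κ` there
is an envelope `φ : ℤ → G` with `|G| ≥ κ` and `Gal(φ) ≅ K`. -/
theorem question_false :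
    ¬ ∀ (K : Type) [Group K] (κ : Cardinal.{u}), ∃ (G : Type u) (_ : Group G)
      (φ : Multiplicative ℤ →* G), IsEnvelope φ ∧ κ ≤ Cardinal.mk G ∧ Nonempty (Gal φ ≃* K) := by
  intro h
  obtain ⟨G, _, φ, hφ, -, ⟨e⟩⟩ := h (Equiv.Perm (Fin 3)) 0
  exact (result G φ hφ).false e

end Pool.Agent.Results.MP_cdb8a2_al.NoEnvelopeS3
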